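import Mathlib
import Pool.Agent.MP_94b95a_al.Defs
import Pool.Agent.MP_94b95a_al.fl.Gl5
import Pool.Agent.MP_94b95a_al.fl.All

namespace Pool.Agent.Results.MP_94b95a_al.NotInvariant

open Pool.Agent.MP_94b95a_al

/-- Being flawed is not a commensurability invariant of finitely presented groups. -/
theorem result :
    ∃ (Γ₁ Γ₂ : Type) (_ : Group Γ₁) (_ : Group Γ₂),
      Group.IsFinitelyPresented Γ₁ ∧ Group.IsFinitelyPresented Γ₂ ∧
      (∃ (H₁ : Subgroup Γ₁) (H₂ : Subgroup Γ₂),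
        H₁.FiniteIndex ∧ H₂.FiniteIndex ∧ Nonempty (H₁ ≃* H₂)) ∧
      Flawed Γ₁ ∧ ¬ Flawed Γ₂ :=
  Fl.final_thm Fl.all_TopStmt Fl.all_ActStmt Fl.all_FpStmt Fl.all_SemiStmt Fl.all_FlawStmt
    Fl.all_MostowStmt Fl.all_TransStmt Fl.all_NotFlawStmt Fl.all_Gl5Stmt Fl.all_Gl5CStmt

end Pool.Agent.Results.MP_94b95a_al.NotInvariant
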